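import Pool.Agent.Q55.DT.Stm

/-! Project DT (helper55): existence of monomial orders refining a weight (S_Ord). -/

set_option autoImplicit false

namespace Pool.Agent.Q166.DT

open Module Pool.Agent.Q55.DT

theorem wt_add {V : Type} (w : V → ℕ) (a b : V →₀ ℕ) : wt w (a + b) = wt w a + wt w b := by
  classical
  unfold wt
  rw [Finsupp.sum_add_index']
  · intro v; simp
  · intro v k l; ring

theorem le_wt {V : Type} (w : V → ℕ) (hw : ∀ v, 0 < w v) (a : V →₀ ℕ) (v : V) :
    a v ≤ wt w a := by
  unfold wt
  by_cases hv : v ∈ a.support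
  · calc a v ≤ a v * w v := Nat.le_mul_of_pos_right _ (hw v)
      _ ≤ _ := Finset.single_le_sum (f := fun v => a v * w v) (fun _ _ => Nat.zero_le _) hv
  · rw [Finsupp.notMem_support_iff.1 hv]
    exact Nat.zero_le _

theorem ord : S_Ord := by
  intro V _ w hw
  classical
  have := Fintype.ofFinite V
  obtain ⟨N, ⟨e⟩⟩ := Finite.exists_equiv_fin V
  let _ : LinearOrder V := LinearOrder.lift' e e.injective
  refine ⟨fun a b => wt w a < wt w b ∨ (wt w a = wt w b ∧ toLex a < toLex b), ?_, ?_⟩
  · constructor
    · rintro a (h | ⟨-, h⟩)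
      · exact lt_irrefl _ h
      · exact lt_irrefl _ h
    · rintro a b c (h | ⟨h, h'⟩) (g | ⟨g, g'⟩)
      · exact Or.inl (h.trans g)
      · exact Or.inl (g ▸ h)
      · exact Or.inl (h ▸ g)
      · exact Or.inr ⟨h.trans g, h'.trans g'⟩
    · intro a b
      rcases lt_trichotomy (wt w a) (wt w b) with h | h | h
      · exact Or.inl (Or.inl h)
      · rcases lt_trichotomy (toLex a) (toLex b) with g | g | g
        · exact Or.inl (Or.inr ⟨h, g⟩)
        · exact Or.inr (Or.inl (toLex.injective g))
        · exact Or.inr (Or.inr (Or.inr ⟨h.symm, g⟩))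
      · exact Or.inr (Or.inr (Or.inl h))
    · rintro a b c (h | ⟨h, h'⟩)
      · left
        rw [wt_add, wt_add]
        omega
      · right
        rw [wt_add, wt_add]
        refine ⟨by omega, ?_⟩
        rw [toLex_add, toLex_add]
        exact add_lt_add_left h' _
    · intro a
      have h1 : {b : V →₀ ℕ | wt w b < wt w a ∨ (wt w b = wt w a ∧ toLex b < toLex a)} ⊆
          {b : V →₀ ℕ | ∀ v, b v ≤ wt w a} := by
        intro b hb v
        have h2 : wt w b ≤ wt w a := by
          rcases hb with h | ⟨h, -⟩
          · exact h.le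
          · exact h.le
        exact (le_wt w hw b v).trans h2
      refine Set.Finite.subset ?_ h1
      have h3 : Set.Finite {f : V → ℕ | ∀ v, f v ≤ wt w a} := by
        have : {f : V → ℕ | ∀ v, f v ≤ wt w a} = Set.Iic (fun _ => wt w a) := by
          ext f
          simp [Pi.le_def]
        rw [this]
        exact Set.finite_Iic _
      exact Set.Finite.of_finite_image (f := fun b : V →₀ ℕ => (b : V → ℕ))
        (h3.subset (by rintro _ ⟨b, hb, rfl⟩; exact hb)) DFunLike.coe_injective.injOn
  · intro a b h
    exact Or.inl h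

end Pool.Agent.Q166.DT
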