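import Pool.Agent.Q55.DT.Stm
import Pool.Agent.Q166.DT.Ord

/-! Project DT (helper55): the main diagonal is the leading term of a minor (S_Diag). -/

set_option autoImplicit false

namespace Pool.Agent.Q166.DT

open Module Pool.Agent.Q55.DT

/-- the exponent of the term of the permutation `σ` -/
noncomputable def expo {n m t : ℕ} (a : Fin t → Fin n) (b : Fin t → Fin m)
    (σ : Equiv.Perm (Fin t)) : Fin n × Fin m →₀ ℕ := ∑ k, Finsupp.single (a (σ k), b k) 1

theorem wt_sum {V : Type} (w : V → ℕ) {ι : Type} (s : Finset ι) (f : ι → V →₀ ℕ) :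
    wt w (∑ i ∈ s, f i) = ∑ i ∈ s, wt w (f i) := by
  classical
  induction s using Finset.induction_on with
  | empty => simp [wt]
  | insert i s hi ih => rw [Finset.sum_insert hi, Finset.sum_insert hi, wt_add, ih]

theorem wt_single {V : Type} (w : V → ℕ) (v : V) : wt w (Finsupp.single v 1) = w v := by
  unfold wt
  rw [Finsupp.sum_single_index (by simp), one_mul]

theorem prod_X {K : Type} [Field K] {V ι : Type} (s : Finset ι) (v : ι → V) :
    ∏ i ∈ s, (MvPowerSeries.X (v i) : MvPowerSeries V K) =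
      MvPowerSeries.monomial (∑ i ∈ s, Finsupp.single (v i) 1) 1 := by
  classical
  induction s using Finset.induction_on with
  | empty => simp
  | insert i s hi ih =>
    rw [Finset.prod_insert hi, Finset.sum_insert hi, ih, MvPowerSeries.X,
      MvPowerSeries.monomial_mul_monomial, one_mul]

theorem wt_expo_lt {n m t : ℕ} (a : Fin t → Fin n) (b : Fin t → Fin m) (ha : StrictMono a)
    (hb : StrictMono b) (σ : Equiv.Perm (Fin t)) (hσ : σ ≠ 1) :
    wt (fun v : Fin n × Fin m => (n + 1) * (m + 1) - ((v.1 : ℕ) + 1) * ((v.2 : ℕ) + 1))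
      (expo a b 1) <
    wt (fun v : Fin n × Fin m => (n + 1) * (m + 1) - ((v.1 : ℕ) + 1) * ((v.2 : ℕ) + 1))
      (expo a b σ) := by
  have h1 : ∀ τ : Equiv.Perm (Fin t),
      wt (fun v : Fin n × Fin m => (n + 1) * (m + 1) - ((v.1 : ℕ) + 1) * ((v.2 : ℕ) + 1))
        (expo a b τ) + ∑ k, ((a (τ k) : ℕ) + 1) * ((b k : ℕ) + 1) = t * ((n + 1) * (m + 1)) := by
    intro τ
    unfold expo
    rw [wt_sum, ← Finset.sum_add_distrib]
    have h2 : ∀ k : Fin t, wt (fun v : Fin n × Fin m => (n + 1) * (m + 1) -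
        ((v.1 : ℕ) + 1) * ((v.2 : ℕ) + 1)) (Finsupp.single (a (τ k), b k) 1) +
        ((a (τ k) : ℕ) + 1) * ((b k : ℕ) + 1) = (n + 1) * (m + 1) := by
      intro k
      rw [wt_single]
      apply Nat.sub_add_cancel
      apply Nat.mul_le_mul
      · have := (a (τ k)).2
        omega
      · have := (b k).2
        omega
    rw [Finset.sum_congr rfl fun k _ => h2 k]
    simp
  have h3 : ∑ k, ((a (σ k) : ℕ) + 1) * ((b k : ℕ) + 1) < ∑ k, ((a k : ℕ) + 1) * ((b k : ℕ) + 1) := by
    let f : Fin t → ℕ := fun k => (a k : ℕ) + 1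
    let g : Fin t → ℕ := fun k => (b k : ℕ) + 1
    have hf : StrictMono f := fun i j hij => Nat.add_lt_add_right (ha hij) 1
    have hg : StrictMono g := fun i j hij => Nat.add_lt_add_right (hb hij) 1
    have hfg : Monovary f g := fun i j hij => hf.monotone (hg.lt_iff_lt.1 hij).le
    refine (Monovary.sum_comp_perm_mul_lt_sum_mul_iff (σ := σ) hfg).2 ?_
    intro h
    apply hσ
    have h4 : StrictMono (σ : Fin t → Fin t) := by
      refine Monotone.strictMono_of_injective ?_ σ.injective
      intro i j hij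
      rcases hij.eq_or_lt with rfl | hij
      · exact le_rfl
      · exact hf.le_iff_le.1 (h (hg hij))
    ext k
    have h5 : (σ : Fin t → Fin t) = id := (StrictMono.range_inj h4
      (strictMono_id (α := Fin t))).1 (by rw [σ.surjective.range_eq, Set.range_id])
    rw [h5]
    rfl
  have h6 := h1 1
  have h7 := h1 σ
  simp only [Equiv.Perm.coe_one, id_eq] at h6
  omega

theorem diag : S_Diag := by
  intro K _ n m t lt hlt hw a b ha hb
  have h0 : (∑ k, Finsupp.single (a k, b k) 1 : Fin n × Fin m →₀ ℕ) = expo a b 1 := by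
    unfold expo
    simp
  rw [h0]
  have hmain : ∀ σ : Equiv.Perm (Fin t), σ ≠ 1 → lt (expo a b 1) (expo a b σ) :=
    fun σ hσ => hw _ _ (wt_expo_lt a b ha hb σ hσ)
  have hcoeff : ∀ e : Fin n × Fin m →₀ ℕ, MvPowerSeries.coeff e (Matrix.of fun i j =>
      (MvPowerSeries.X (a i, b j) : MvPowerSeries (Fin n × Fin m) K)).det =
      ∑ σ : Equiv.Perm (Fin t), if e = expo a b σ then (Equiv.Perm.sign σ : ℤ) • (1 : K) else 0 := by
    classical
    intro e
    rw [Matrix.det_apply', map_sum]
    refine Finset.sum_congr rfl fun σ _ => ?_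
    simp only [Matrix.of_apply]
    rw [prod_X, ← zsmul_eq_mul, map_zsmul, MvPowerSeries.coeff_monomial]
    unfold expo
    split_ifs
    · rfl
    · simp
  refine ⟨_, Ideal.subset_span ⟨a, b, ha, hb, rfl⟩, ?_, ?_⟩
  · rw [hcoeff, Finset.sum_eq_single 1]
    · simp
    · intro σ _ hσ
      rw [if_neg]
      intro h
      have := hmain σ hσ
      rw [← h] at this
      exact hlt.irrefl _ this
    · intro h
      exact absurd (Finset.mem_univ _) h
  · intro e' he'
    rw [hcoeff]
    apply Finset.sum_eq_zero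
    intro σ _
    rw [if_neg]
    rintro rfl
    by_cases hσ : σ = 1
    · subst hσ
      exact hlt.irrefl _ he'
    · exact hlt.irrefl _ (hlt.trans _ _ _ he' (hmain σ hσ))

end Pool.Agent.Q166.DT
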