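import Pool.Agent.Q55.DT.Stm

/-! Project DT (helper55): leading exponents of ideals of power series (S_Lead). -/

set_option autoImplicit false

namespace Pool.Agent.Q166.DT

open Module Filter Pool.Agent.Q55.DT
open scoped ENNReal NNReal

/-- the rank of an exponent in the order -/
noncomputable def rho {V : Type} (lt : (V →₀ ℕ) → (V →₀ ℕ) → Prop) (e : V →₀ ℕ) : ℕ :=
  {b | lt b e}.ncard

theorem rho_lt {V : Type} {lt : (V →₀ ℕ) → (V →₀ ℕ) → Prop} (h : IsOrd lt) {a b : V →₀ ℕ}
    (hab : lt a b) : rho lt a < rho lt b := by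
  refine Set.ncard_lt_ncard ?_ (h.fin b)
  refine ⟨fun c hc => h.trans _ _ _ hc hab, ?_⟩
  intro hs
  exact h.irrefl a (hs hab)

theorem lead_mul {K : Type} [Field K] {V : Type} {lt : (V →₀ ℕ) → (V →₀ ℕ) → Prop}
    (h : IsOrd lt) (J J' : Ideal (MvPowerSeries V K)) (e : V →₀ ℕ) (he : e ∈ Lead lt J)
    (e' : V →₀ ℕ) (he' : e' ∈ Lead lt J') : e + e' ∈ Lead lt (J * J') := by
  classical
  obtain ⟨f, hf, hf0, hf1⟩ := he
  obtain ⟨g, hg, hg0, hg1⟩ := he'
  have key : ∀ p q : V →₀ ℕ, (p + q = e + e' → p ≠ e) → (lt (p + q) (e + e') ∨ p + q = e + e') →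
      MvPowerSeries.coeff p f * MvPowerSeries.coeff q g = 0 := by
    intro p q hpe hpq
    have no : ¬ lt (e + e') (p + q) := by
      intro h1
      rcases hpq with h2 | h2
      · exact h.irrefl _ (h.trans _ _ _ h1 h2)
      · rw [h2] at h1
        exact h.irrefl _ h1
    rcases h.total p e with h1 | h1 | h1
    · rw [hf1 p h1, zero_mul]
    · rcases h.total q e' with h2 | h2 | h2
      · rw [hg1 q h2, mul_zero]
      · exfalso
        exact hpe (by rw [h1, h2]) h1
      · exfalso
        apply no
        rw [h1, add_comm e e', add_comm e q]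
        exact h.add _ _ _ h2
    · rcases h.total q e' with h2 | h2 | h2
      · rw [hg1 q h2, mul_zero]
      · exfalso
        apply no
        rw [h2]
        exact h.add _ _ _ h1
      · exfalso
        apply no
        refine h.trans _ (p + e') _ (h.add _ _ _ h1) ?_
        rw [add_comm p e', add_comm p q]
        exact h.add _ _ _ h2
  refine ⟨f * g, Ideal.mul_mem_mul hf hg, ?_, ?_⟩
  · rw [MvPowerSeries.coeff_mul, Finset.sum_eq_single (e, e')]
    · exact mul_ne_zero hf0 hg0
    · rintro ⟨p, q⟩ hpq hne
      rw [Finset.HasAntidiagonal.mem_antidiagonal] at hpq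
      simp only at hpq ⊢
      refine key p q ?_ (Or.inr hpq)
      intro _ hpe
      apply hne
      subst hpe
      rw [add_left_cancel hpq]
    · intro hn
      rw [Finset.HasAntidiagonal.mem_antidiagonal] at hn
      exact absurd rfl hn
  · intro e'' he''
    rw [MvPowerSeries.coeff_mul]
    apply Finset.sum_eq_zero
    rintro ⟨p, q⟩ hpq
    rw [Finset.HasAntidiagonal.mem_antidiagonal] at hpq
    simp only at hpq ⊢
    refine key p q ?_ (Or.inl (by rw [hpq]; exact he''))
    intro h1
    exfalso
    rw [← hpq, h1] at he''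
    exact h.irrefl _ he''

theorem lead_monomial {K : Type} [Field K] {V : Type} {lt : (V →₀ ℕ) → (V →₀ ℕ) → Prop}
    (h : IsOrd lt) (J : Ideal (MvPowerSeries V K)) (e : V →₀ ℕ)
    (he : MvPowerSeries.monomial e (1 : K) ∈ J) : e ∈ Lead lt J := by
  classical
  refine ⟨_, he, ?_, ?_⟩
  · rw [MvPowerSeries.coeff_monomial_same]
    exact one_ne_zero
  · intro e' he'
    rw [MvPowerSeries.coeff_monomial_ne]
    rintro rfl
    exact h.irrefl _ he'

/-- truncation -/
noncomputable def tr {K : Type} [Field K] {V : Type} (N : ℕ) (f : MvPowerSeries V K) :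
    MvPowerSeries V K := fun e => if e.degree < N then MvPowerSeries.coeff e f else 0

theorem coeff_tr {K : Type} [Field K] {V : Type} (N : ℕ) (f : MvPowerSeries V K) (e : V →₀ ℕ) :
    MvPowerSeries.coeff e (tr N f) = if e.degree < N then MvPowerSeries.coeff e f else 0 := rfl

theorem sub_tr_mem {K : Type} [Field K] {V : Type} {N : ℕ} {J : Ideal (MvPowerSeries V K)}
    (hJ : Deep N J) (f : MvPowerSeries V K) : f - tr N f ∈ J := by
  apply hJ
  intro e he
  rw [map_sub, coeff_tr, if_pos he, sub_self]

theorem lead_dim {K : Type} [Field K] {V : Type} [Finite V] {lt : (V →₀ ℕ) → (V →₀ ℕ) → Prop}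
    (h : IsOrd lt) (J : Ideal (MvPowerSeries V K)) (N : ℕ) (hJ : Deep N J) :
    Module.Finite K (MvPowerSeries V K ⧸ J) ∧ (Lead lt J)ᶜ.Finite ∧
    finrank K (MvPowerSeries V K ⧸ J) = (Lead lt J)ᶜ.ncard := by
  classical
  have hE : {e : V →₀ ℕ | e.degree < N}.Finite := Finsupp.finite_of_degree_lt N
  have hC : (Lead lt J)ᶜ ⊆ {e : V →₀ ℕ | e.degree < N} := by
    intro e he
    by_contra hd
    apply he
    apply lead_monomial h
    apply hJ
    intro e' he'
    rw [MvPowerSeries.coeff_monomial_ne]
    rintro rfl
    exact hd he'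
  have hCf : (Lead lt J)ᶜ.Finite := hE.subset hC
  let _ : Fintype ((Lead lt J)ᶜ : Set (V →₀ ℕ)) := hCf.fintype
  let mk : MvPowerSeries V K →ₐ[K] MvPowerSeries V K ⧸ J := Ideal.Quotient.mkₐ K J
  have hmk : ∀ f, mk f = 0 ↔ f ∈ J := fun f => Ideal.Quotient.eq_zero_iff_mem
  let v : ((Lead lt J)ᶜ : Set (V →₀ ℕ)) → MvPowerSeries V K ⧸ J :=
    fun e => mk (MvPowerSeries.monomial (e : V →₀ ℕ) (1 : K))
  have hli : LinearIndependent K v := by
    rw [Fintype.linearIndependent_iff]
    intro g hg
    by_contra hne
    push Not at hne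
    obtain ⟨i₀, hi₀⟩ := hne
    obtain ⟨i, hi, hmin⟩ := Finset.exists_min_image
      (Finset.univ.filter fun i : ((Lead lt J)ᶜ : Set (V →₀ ℕ)) => g i ≠ 0)
      (fun i => rho lt (i : V →₀ ℕ)) ⟨i₀, by simp [hi₀]⟩
    have hgi : g i ≠ 0 := (Finset.mem_filter.1 hi).2
    apply i.2
    have hmem : ∑ i, g i • MvPowerSeries.monomial (i : V →₀ ℕ) (1 : K) ∈ J := by
      rw [← hmk, map_sum]
      simp only [map_smul]
      exact hg
    have hco : ∀ e : V →₀ ℕ, MvPowerSeries.coeff e
        (∑ i, g i • MvPowerSeries.monomial (i : V →₀ ℕ) (1 : K)) =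
        ∑ i : ((Lead lt J)ᶜ : Set (V →₀ ℕ)), if e = i then g i else 0 := by
      intro e
      rw [map_sum]
      refine Finset.sum_congr rfl fun j _ => ?_
      rw [map_smul, MvPowerSeries.coeff_monomial, smul_eq_mul]
      split_ifs
      · rw [mul_one]
      · rw [mul_zero]
    refine ⟨_, hmem, ?_, ?_⟩
    · rw [hco, Finset.sum_eq_single i]
      · rw [if_pos rfl]; exact hgi
      · intro j _ hj
        rw [if_neg]
        intro hij
        exact hj (Subtype.ext hij.symm)
      · intro hn
        exact absurd (Finset.mem_univ _) hn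
    · intro e' he'
      rw [hco]
      apply Finset.sum_eq_zero
      intro j _
      split_ifs with hj
      · by_contra hgj
        have h3 := hmin j (by simp [hgj])
        have h4 := rho_lt h he'
        rw [hj] at h4
        omega
      · rfl
  have claim : ∀ S : Finset (V →₀ ℕ), (∀ e ∈ S, e.degree < N) →
      (∀ e ∈ S, ∀ e' : V →₀ ℕ, e'.degree < N → lt e e' → e' ∈ S) →
      ∀ f : MvPowerSeries V K, (∀ e, e ∉ S → MvPowerSeries.coeff e f = 0) →
        mk f ∈ Submodule.span K (Set.range v) := by
    intro S
    induction S using Finset.strongInduction with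
    | H S ih =>
      intro hSN hSU f hf
      rcases S.eq_empty_or_nonempty with rfl | hS
      · have : f = 0 := by
          ext e
          rw [hf e (by simp), map_zero]
        rw [this, map_zero]
        exact Submodule.zero_mem _
      · obtain ⟨e₁, he₁, hmin⟩ := Finset.exists_min_image S (rho lt) hS
        obtain ⟨g, hg0, hg1, hg2⟩ : ∃ g : MvPowerSeries V K,
            MvPowerSeries.coeff e₁ g = 1 ∧ (∀ e, e ∉ S → MvPowerSeries.coeff e g = 0) ∧
            mk g ∈ Submodule.span K (Set.range v) := by
          by_cases hL : e₁ ∈ Lead lt J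
          · obtain ⟨g, hg, hg0, hg1⟩ := hL
            have htr : tr N g ∈ J := by
              have := J.sub_mem hg (sub_tr_mem hJ g)
              rwa [sub_sub_cancel] at this
            refine ⟨(MvPowerSeries.coeff e₁ g)⁻¹ • tr N g, ?_, ?_, ?_⟩
            · rw [map_smul, coeff_tr, if_pos (hSN _ he₁), smul_eq_mul, inv_mul_cancel₀ hg0]
            · intro e he
              rw [map_smul, coeff_tr]
              split_ifs with hd
              · rcases h.total e e₁ with h5 | h5 | h5
                · rw [hg1 e h5, smul_zero]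
                · exact absurd (h5 ▸ he₁) he
                · exact absurd (hSU e₁ he₁ e hd h5) he
              · rw [smul_zero]
            · rw [map_smul, (hmk _).2 htr, smul_zero]
              exact Submodule.zero_mem _
          · refine ⟨MvPowerSeries.monomial e₁ 1, MvPowerSeries.coeff_monomial_same _ _, ?_, ?_⟩
            · intro e he
              rw [MvPowerSeries.coeff_monomial_ne]
              rintro rfl
              exact he he₁
            · exact Submodule.subset_span ⟨⟨e₁, hL⟩, rfl⟩
        have h6 : mk (f - MvPowerSeries.coeff e₁ f • g) ∈ Submodule.span K (Set.range v) := by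
          refine ih (S.erase e₁) (Finset.erase_ssubset he₁)
            (fun e he => hSN e (Finset.mem_of_mem_erase he)) ?_ _ ?_
          · intro e he e' hd hee'
            refine Finset.mem_erase.2 ⟨?_, hSU e (Finset.mem_of_mem_erase he) e' hd hee'⟩
            rintro rfl
            have h7 := hmin e (Finset.mem_of_mem_erase he)
            have h8 := rho_lt h hee'
            omega
          · intro e he
            rw [map_sub, map_smul, smul_eq_mul]
            by_cases hee : e = e₁
            · subst hee
              rw [hg0, mul_one, sub_self]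
            · have he' : e ∉ S := fun hS' => he (Finset.mem_erase.2 ⟨hee, hS'⟩)
              rw [hf e he', hg1 e he', mul_zero, sub_zero]
        have h9 : f = (f - MvPowerSeries.coeff e₁ f • g) + MvPowerSeries.coeff e₁ f • g := by
          rw [sub_add_cancel]
        rw [h9, map_add, map_smul]
        exact Submodule.add_mem _ h6 (Submodule.smul_mem _ _ hg2)
  have hspan : ⊤ ≤ Submodule.span K (Set.range v) := by
    intro x _
    obtain ⟨f, rfl⟩ : ∃ f, mk f = x := Ideal.Quotient.mk_surjective x
    have h10 : mk f = mk (tr N f) := by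
      rw [← sub_eq_zero, ← map_sub, hmk]
      exact sub_tr_mem hJ f
    rw [h10]
    refine claim hE.toFinset (fun e he => hE.mem_toFinset.1 he)
      (fun e _ e' he' _ => hE.mem_toFinset.2 he') _ ?_
    intro e he
    rw [coeff_tr, if_neg]
    intro hd
    exact he (hE.mem_toFinset.2 hd)
  let b := Basis.mk hli hspan
  refine ⟨Module.Finite.of_basis b, hCf, ?_⟩
  rw [finrank_eq_card_basis b, Set.ncard_eq_toFinset_card' , Set.toFinset_card]

theorem lead : S_Lead := by
  intro K _ V _ lt hlt
  have htop : ∀ e, e ∈ Lead (K := K) lt ⊤ := fun e => lead_monomial hlt ⊤ e trivial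
  refine ⟨fun J N hJ => lead_dim hlt J N hJ, fun J J' e he e' he' => lead_mul hlt J J' e he e' he',
    ?_, ?_⟩
  · intro J e he e'
    have := lead_mul hlt J ⊤ e he e' (htop e')
    rwa [Ideal.mul_top] at this
  · intro J k
    induction k with
    | zero =>
      intro a _
      rw [Fin.sum_univ_zero, pow_zero, Ideal.one_eq_top]
      exact htop 0
    | succ k ih =>
      intro a ha
      rw [Fin.sum_univ_succ, pow_succ']
      exact lead_mul hlt _ _ _ (ha 0) _ (ih (fun i => a i.succ) fun i => ha i.succ)

end Pool.Agent.Q166.DT
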