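import Pool.Agent.Q55.DT.Stm

/-! Project DT (helper55): length over `A` and over `K` (after Pool.Agent.Q187.LM.LFN). -/

set_option autoImplicit false

namespace Pool.Agent.Q166.DT

open Module Pool.Agent.Q55.DT

theorem lenk : S_LenK := by
  intro K _ A _ _ _ h I
  have hloc : IsLocalHom (algebraMap K A) := by
    constructor
    intro z hz
    apply isUnit_iff_ne_zero.2
    rintro rfl
    rw [map_zero] at hz
    exact not_isUnit_zero hz
  have h1 := IsLocalRing.length_restrictScalars K A (A ⧸ I)
  have h2 : Module.length (IsLocalRing.ResidueField K) (IsLocalRing.ResidueField A) = 1 := by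
    have hs : Function.Surjective (algebraMap (IsLocalRing.ResidueField K)
        (IsLocalRing.ResidueField A)) := by
      intro x
      obtain ⟨a, rfl⟩ := IsLocalRing.residue_surjective x
      obtain ⟨z, hz⟩ := h a
      refine ⟨IsLocalRing.residue K z, ?_⟩
      have e : algebraMap (IsLocalRing.ResidueField K) (IsLocalRing.ResidueField A)
          (IsLocalRing.residue K z) = IsLocalRing.residue A (algebraMap K A z) := rfl
      rw [e, ← sub_eq_zero, ← map_sub, IsLocalRing.residue_eq_zero_iff,
        IsLocalRing.mem_maximalIdeal, mem_nonunits_iff, ← neg_sub, IsUnit.neg_iff]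
      exact hz
    have hb : Function.Bijective (algebraMap (IsLocalRing.ResidueField K)
        (IsLocalRing.ResidueField A)) := ⟨RingHom.injective _, hs⟩
    rw [Module.length_eq_rank]
    have e := (LinearEquiv.ofBijective (Algebra.linearMap (IsLocalRing.ResidueField K)
      (IsLocalRing.ResidueField A)) hb).rank_eq
    rw [← e, rank_self]
    simp
  rw [h2, mul_one] at h1
  exact h1.symm

end Pool.Agent.Q166.DT
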