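import Pool.Agent.Q55.DT.Stm

/-! Project DT (helper55): the Lech–Mumford constant is at least one (S_LmLow). -/

set_option autoImplicit false

namespace Pool.Agent.Q166.DT

open Module Filter Pool.Agent.Q55.DT
open scoped ENNReal NNReal

theorem lmlow : S_LmLow := by
  intro A _ _ hfin hlow
  set d := kdim A with hd
  set M := IsLocalRing.maximalIdeal A with hM
  obtain ⟨a, ha⟩ : ∃ a : ℕ → ℕ, ∀ k, Module.length A (A ⧸ M ^ k) = (a k : ℕ∞) :=
    ⟨fun k => (Module.length A (A ⧸ M ^ k)).toNat, fun k => (ENat.natCast_toNat (hfin k)).symm⟩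
  have h1 : ∀ k, k ^ d ≤ d.factorial * a k := by
    intro k
    have := hlow k
    rw [ha] at this
    exact_mod_cast this
  have ha0 : ∀ k, 1 ≤ k → 0 < a k := by
    intro k hk
    have h2 := h1 k
    have h3 : 0 < k ^ d := by positivity
    rcases Nat.eq_zero_or_pos (a k) with h | h
    · rw [h] at h2; omega
    · exact h
  by_contra hlt
  push Not at hlt
  obtain ⟨c, hLc, hc1⟩ := ENNReal.lt_iff_exists_nnreal_btwn.1 hlt
  have hc1' : (c : ℝ) < 1 := by exact_mod_cast hc1
  have step : ∀ N, 1 ≤ N → ∃ k, 1 ≤ k ∧ (a (N * k) : ℝ) < c * a N * (k : ℝ) ^ d := by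
    intro N hN
    have hmax : (M ^ N).radical.IsMaximal := by
      rw [Ideal.radical_pow _ (by omega), (IsLocalRing.maximalIdeal.isMaximal A).isPrime.radical]
      exact IsLocalRing.maximalIdeal.isMaximal A
    have h2 : hsMult A (M ^ N) / (((kdim A).factorial : ℝ≥0∞) *
        ((Module.length A (A ⧸ M ^ N) : ℕ∞) : ℝ≥0∞)) ≤ lechMumford A :=
      le_iSup₂ (f := fun (I : Ideal A) (_ : I.radical.IsMaximal) =>
        hsMult A I / (((kdim A).factorial : ℝ≥0∞) * ((Module.length A (A ⧸ I) : ℕ∞) : ℝ≥0∞)))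
        (M ^ N) hmax
    have hx0 : ((d.factorial : ℝ≥0∞) * (a N : ℝ≥0∞)) ≠ 0 := by
      have := ha0 N hN
      have h4 := Nat.factorial_pos d
      rw [← Nat.cast_mul, Nat.cast_ne_zero]
      positivity
    have hxt : ((d.factorial : ℝ≥0∞) * (a N : ℝ≥0∞)) ≠ ∞ := by
      rw [← Nat.cast_mul]
      exact ENNReal.natCast_ne_top _
    rw [ha, ENat.toENNReal_coe, ← hd] at h2
    have h3 : hsMult A (M ^ N) < c * ((d.factorial : ℝ≥0∞) * (a N : ℝ≥0∞)) := by
      have h4 : hsMult A (M ^ N) / ((d.factorial : ℝ≥0∞) * (a N : ℝ≥0∞)) < c := h2.trans_lt hLc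
      rwa [ENNReal.div_lt_iff (Or.inl hx0) (Or.inl hxt)] at h4
    unfold hsMult at h3
    have h5 := Filter.eventually_lt_of_limsup_lt h3
    obtain ⟨k, hk, hk1⟩ := (h5.and (Filter.eventually_ge_atTop 1)).exists
    refine ⟨k, hk1, ?_⟩
    rw [← pow_mul, ha, ENat.toENNReal_coe, ← hd] at hk
    have hk0 : ((k : ℝ≥0∞)) ^ d ≠ 0 := by
      apply pow_ne_zero
      rw [Nat.cast_ne_zero]
      omega
    have hkt : ((k : ℝ≥0∞)) ^ d ≠ ∞ := by
      rw [← Nat.cast_pow]
      exact ENNReal.natCast_ne_top _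
    rw [ENNReal.div_lt_iff (Or.inl hk0) (Or.inl hkt)] at hk
    have h6 : ((d.factorial : ℝ≥0) * (a (N * k) : ℝ≥0)) <
        c * ((d.factorial : ℝ≥0) * (a N : ℝ≥0)) * (k : ℝ≥0) ^ d := by
      exact_mod_cast hk
    have h7 : ((d.factorial : ℝ) * (a (N * k) : ℝ)) <
        c * ((d.factorial : ℝ) * (a N : ℝ)) * (k : ℝ) ^ d := by
      exact_mod_cast h6
    have h8 : (0 : ℝ) < d.factorial := by exact_mod_cast Nat.factorial_pos d
    have h9 : (d.factorial : ℝ) * (a (N * k) : ℝ) < d.factorial * (c * a N * (k : ℝ) ^ d) := by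
      linarith
    exact lt_of_mul_lt_mul_left h9 h8.le
  -- the infimum
  let b : ℕ → ℝ := fun N => (a (N + 1) : ℝ) / ((N + 1 : ℕ) : ℝ) ^ d
  have hb : ∀ N, 1 / (d.factorial : ℝ) ≤ b N := by
    intro N
    have h8 : (0 : ℝ) < d.factorial := by exact_mod_cast Nat.factorial_pos d
    have h9 : (0 : ℝ) < ((N + 1 : ℕ) : ℝ) ^ d := by positivity
    rw [div_le_div_iff₀ h8 h9]
    have h10 := h1 (N + 1)
    have h11 : (((N + 1 : ℕ) : ℝ)) ^ d ≤ d.factorial * a (N + 1) := by exact_mod_cast h10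
    linarith
  have hbdd : BddBelow (Set.range b) := ⟨1 / (d.factorial : ℝ), by
    rintro _ ⟨N, rfl⟩
    exact hb N⟩
  set β : ℝ := ⨅ N, b N with hβ
  have hβ0 : 0 < β := by
    have h8 : (0 : ℝ) < d.factorial := by exact_mod_cast Nat.factorial_pos d
    have h12 : 1 / (d.factorial : ℝ) ≤ β := le_ciInf hb
    have h13 : 0 < 1 / (d.factorial : ℝ) := by positivity
    linarith
  have hstep : ∀ N, β ≤ c * b N := by
    intro N
    obtain ⟨k, hk, h⟩ := step (N + 1) (by omega)
    have h14 : β ≤ b ((N + 1) * k - 1) := ciInf_le hbdd _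
    have h15 : (N + 1) * k - 1 + 1 = (N + 1) * k := by
      have : 0 < (N + 1) * k := by positivity
      omega
    have h16 : b ((N + 1) * k - 1) = (a ((N + 1) * k) : ℝ) / (((N + 1) * k : ℕ) : ℝ) ^ d := by
      simp only [b]
      rw [h15]
    have hk' : (0 : ℝ) < (k : ℝ) ^ d := by
      have : (0 : ℝ) < k := by exact_mod_cast hk
      positivity
    have hN' : (0 : ℝ) < ((N + 1 : ℕ) : ℝ) ^ d := by positivity
    have h17 : b ((N + 1) * k - 1) ≤ c * b N := by
      rw [h16]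
      simp only [b]
      rw [Nat.cast_mul, mul_pow, ← mul_div_assoc, div_le_div_iff₀ (by positivity) hN']
      have h18 : (a ((N + 1) * k) : ℝ) * ((N + 1 : ℕ) : ℝ) ^ d ≤
          (c * a (N + 1) * (k : ℝ) ^ d) * ((N + 1 : ℕ) : ℝ) ^ d :=
        mul_le_mul_of_nonneg_right h.le hN'.le
      linarith
    exact h14.trans h17
  have hfinal : β ≤ c * β := by
    rcases eq_or_lt_of_le (NNReal.coe_nonneg c) with h0 | h0
    · have := hstep 0
      rw [← h0, zero_mul] at this
      linarith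
    · have h19 : β / c ≤ β := by
        rw [hβ]
        apply le_ciInf
        intro N
        rw [← hβ, div_le_iff₀ h0, mul_comm]
        exact hstep N
      rw [div_le_iff₀ h0] at h19
      linarith
  nlinarith

end Pool.Agent.Q166.DT
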