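import Pool.Agent.Q55.DT.Stm

/-! Project DT (helper55): the determinantal ring is a Noetherian local ring (S_LocD). -/

set_option autoImplicit false

namespace Pool.Agent.Q166.DT

open Module Filter Pool.Agent.Q55.DT
open scoped ENNReal NNReal

theorem coeff_X_mul' {K V : Type} [CommRing K] [DecidableEq V] (v : V) (g : MvPowerSeries V K)
    (e : V →₀ ℕ) : MvPowerSeries.coeff e (MvPowerSeries.X v * g) =
      if Finsupp.single v 1 ≤ e then MvPowerSeries.coeff (e - Finsupp.single v 1) g else 0 := by
  rw [MvPowerSeries.X_def, MvPowerSeries.coeff_monomial_mul]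
  simp only [one_mul]

open Classical in
/-- a piece of a power series divisible by `X v` -/
noncomputable def piece {K V : Type} [CommRing K] (f : MvPowerSeries V K) (v : V) :
    MvPowerSeries V K := fun e =>
  if ∃ h : (e + Finsupp.single v 1).support.Nonempty, h.choose = v then
    MvPowerSeries.coeff (e + Finsupp.single v 1) f else 0

open Classical in
theorem coeff_piece {K V : Type} [CommRing K] (f : MvPowerSeries V K) (v : V) (e : V →₀ ℕ) :
    MvPowerSeries.coeff e (piece f v) =
      if ∃ h : (e + Finsupp.single v 1).support.Nonempty, h.choose = v then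
        MvPowerSeries.coeff (e + Finsupp.single v 1) f else 0 := rfl

theorem sum_pieces {K V : Type} [CommRing K] [Fintype V] (f : MvPowerSeries V K)
    (hf : MvPowerSeries.coeff 0 f = 0) : f = ∑ v, MvPowerSeries.X v * piece f v := by
  classical
  ext e
  rw [map_sum]
  have h1 : ∀ v, MvPowerSeries.coeff e (MvPowerSeries.X v * piece f v) =
      if Finsupp.single v 1 ≤ e ∧ ∃ h : e.support.Nonempty, h.choose = v then
        MvPowerSeries.coeff e f else 0 := by
    intro v
    rw [coeff_X_mul']
    by_cases h : Finsupp.single v 1 ≤ e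
    · rw [if_pos h, coeff_piece, tsub_add_cancel_of_le h]
      simp only [h, true_and]
    · simp only [h, false_and, if_false]
  rw [Finset.sum_congr rfl fun v _ => h1 v]
  by_cases he : e = 0
  · subst he
    rw [hf]
    simp
  · have hne : e.support.Nonempty := Finsupp.support_nonempty_iff.2 he
    rw [Finset.sum_eq_single hne.choose]
    · rw [if_pos]
      refine ⟨?_, hne, rfl⟩
      have h2 := hne.choose_spec
      rw [Finsupp.mem_support_iff] at h2
      rw [Finsupp.single_le_iff]
      omega
    · intro v _ hv
      rw [if_neg]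
      rintro ⟨-, h, h'⟩
      exact hv h'.symm
    · intro h
      exact absurd (Finset.mem_univ _) h

theorem mem_pow {K V : Type} [CommRing K] [Fintype V] (N : ℕ) : ∀ f : MvPowerSeries V K,
    (∀ e : V →₀ ℕ, e.degree < N → MvPowerSeries.coeff e f = 0) →
    f ∈ (Ideal.span (Set.range fun v : V => (MvPowerSeries.X v : MvPowerSeries V K))) ^ N := by
  induction N with
  | zero => intro f _; simp
  | succ N ih =>
    intro f hf
    rw [sum_pieces f (hf 0 (by simp))]
    refine Ideal.sum_mem _ fun v _ => ?_
    rw [pow_succ']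
    refine Ideal.mul_mem_mul (Ideal.subset_span ⟨v, rfl⟩) (ih _ ?_)
    intro e he
    rw [coeff_piece]
    rw [hf (e + Finsupp.single v 1) (by rw [map_add, Finsupp.degree_single]; omega)]
    simp

theorem minor_le {K : Type} [Field K] (n m t : ℕ) (ht : 1 ≤ t) :
    minorIdeal K n m t ≤ RingHom.ker (MvPowerSeries.constantCoeff (σ := Fin n × Fin m) (R := K)) := by
  refine Ideal.span_le.2 ?_
  rintro _ ⟨a, b, -, -, rfl⟩
  have : Nonempty (Fin t) := ⟨⟨0, ht⟩⟩
  rw [SetLike.mem_coe, RingHom.mem_ker, RingHom.map_det]
  have h1 : (MvPowerSeries.constantCoeff (σ := Fin n × Fin m) (R := K)).mapMatrix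
      (Matrix.of fun i j => (MvPowerSeries.X (a i, b j) : MvPowerSeries (Fin n × Fin m) K)) = 0 := by
    ext i j
    simp
  rw [h1, Matrix.det_zero]

theorem locd : S_LocD := by
  intro K _ n m t ht
  have hle := minor_le (K := K) n m t ht
  have hnt : Nontrivial (DetRing K n m t) := by
    refine Ideal.Quotient.nontrivial_iff.2 ?_
    intro h
    have h1 : (1 : MvPowerSeries (Fin n × Fin m) K) ∈ minorIdeal K n m t := by rw [h]; trivial
    have h2 := hle h1
    rw [RingHom.mem_ker, map_one] at h2
    exact one_ne_zero h2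
  have hloc : IsLocalRing (DetRing K n m t) :=
    IsLocalRing.of_surjective' (Ideal.Quotient.mk (minorIdeal K n m t)) Ideal.Quotient.mk_surjective
  let ε : DetRing K n m t →+* K := Ideal.Quotient.lift (minorIdeal K n m t)
    (MvPowerSeries.constantCoeff (σ := Fin n × Fin m) (R := K)) (fun a ha => hle ha)
  have hε : ∀ f, ε (Ideal.Quotient.mk _ f) = MvPowerSeries.constantCoeff f := fun f => rfl
  have hu : ∀ a : DetRing K n m t, IsUnit a ↔ ε a ≠ 0 := by
    intro a
    constructor
    · intro h
      exact (h.map ε).ne_zero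
    · obtain ⟨f, rfl⟩ := Ideal.Quotient.mk_surjective a
      intro h
      rw [hε] at h
      have h2 : IsUnit f := MvPowerSeries.isUnit_iff_constantCoeff.2 (isUnit_iff_ne_zero.2 h)
      exact h2.map _
  have hpow : ∀ (N : ℕ) (f : MvPowerSeries (Fin n × Fin m) K),
    (∀ e : (Fin n × Fin m) →₀ ℕ, e.degree < N → MvPowerSeries.coeff e f = 0) →
    Ideal.Quotient.mk (minorIdeal K n m t) f ∈ mIdeal K n m t ^ N := by
    intro N f hf
    have h3 := Ideal.mem_map_of_mem (Ideal.Quotient.mk (minorIdeal K n m t)) (mem_pow N f hf)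
    rw [Ideal.map_pow, Ideal.map_span, ← Set.range_comp] at h3
    exact h3
  refine ⟨inferInstance, hloc, ?_, ?_, hpow⟩
  · intro a
    refine ⟨ε a, ?_⟩
    rw [hu, not_not, map_sub, sub_eq_zero]
    have h4 : algebraMap K (DetRing K n m t) (ε a) =
        Ideal.Quotient.mk _ (algebraMap K (MvPowerSeries (Fin n × Fin m) K) (ε a)) := rfl
    rw [h4, hε, MvPowerSeries.algebraMap_apply]
    simp
  · intro a
    rw [hu, not_not]
    constructor
    · intro h
      have h5 : mIdeal K n m t ≤ RingHom.ker ε := by
        refine Ideal.span_le.2 ?_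
        rintro _ ⟨v, rfl⟩
        rw [SetLike.mem_coe, RingHom.mem_ker, hε]
        exact MvPowerSeries.constantCoeff_X v
      exact h5 h
    · obtain ⟨f, rfl⟩ := Ideal.Quotient.mk_surjective a
      intro h
      rw [hε] at h
      have h6 := hpow 1 f (by
        intro e he
        have : e = 0 := by
          rw [← Finsupp.degree_eq_zero_iff]
          omega
        rw [this]
        exact h)
      exact (le_of_eq (pow_one (mIdeal K n m t))) h6

end Pool.Agent.Q166.DT
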