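import Pool.Agent.Q55.DT.Stm2
import Pool.Agent.Q166.DT.LeadP

/-! Project DT (helper55): assembly, the upper bound for the colength of the powers (S_UpD). -/

set_option autoImplicit false

namespace Pool.Agent.Q166.DT

open Module Filter Pool.Agent.Q55.DT
open scoped ENNReal NNReal

theorem lead_mono {K : Type} [Field K] {V : Type} {lt : (V →₀ ℕ) → (V →₀ ℕ) → Prop}
    {J J' : Ideal (MvPowerSeries V K)} (h : J ≤ J') {e : V →₀ ℕ} (he : e ∈ Lead lt J) :
    e ∈ Lead lt J' := by
  obtain ⟨f, hf, h1, h2⟩ := he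
  exact ⟨f, h hf, h1, h2⟩

/-- the quotient of the quotient -/
theorem qq {K : Type} [Field K] {V : Type} (I₀ : Ideal (MvPowerSeries V K))
    (I : Ideal (MvPowerSeries V K ⧸ I₀)) :
    Nonempty ((MvPowerSeries V K ⧸ I.comap (Ideal.Quotient.mk I₀)) ≃ₗ[K]
      ((MvPowerSeries V K ⧸ I₀) ⧸ I)) := by
  let φ : MvPowerSeries V K →ₐ[K] ((MvPowerSeries V K ⧸ I₀) ⧸ I) :=
    (Ideal.Quotient.mkₐ K I).comp (Ideal.Quotient.mkₐ K I₀)
  have hs : Function.Surjective φ :=
    (Ideal.Quotient.mkₐ_surjective K I).comp (Ideal.Quotient.mkₐ_surjective K I₀)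
  have hk : I.comap (Ideal.Quotient.mk I₀) = RingHom.ker φ := by
    ext f
    rw [Ideal.mem_comap, RingHom.mem_ker]
    exact (Ideal.Quotient.eq_zero_iff_mem (I := I) (a := Ideal.Quotient.mk I₀ f)).symm
  exact ⟨((Ideal.quotientEquivAlgOfEq K hk).trans
    (Ideal.quotientKerAlgEquivOfSurjective hs)).toLinearEquiv⟩

theorem chain_insert {n m r : ℕ} (hr : 1 ≤ r) (hn : 0 < n) (hm : 0 < m)
    (F : Finset (Fin n × Fin m)) (hF : ChainFree r F) :
    ChainFree r (insert ((⟨0, hn⟩, ⟨m - 1, by omega⟩) : Fin n × Fin m) F) := by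
  intro a b ha hb
  obtain ⟨k, hk⟩ := hF a b ha hb
  refine ⟨k, ?_⟩
  rw [Finset.mem_insert]
  rintro (h | h)
  · rw [Prod.mk.injEq] at h
    obtain ⟨h1, h2⟩ := h
    by_cases hk0 : k = 0
    · subst hk0
      have h3 := hb (show (0 : Fin (r + 1)) < ⟨1, by omega⟩ by
        rw [Fin.lt_def]; simp)
      rw [h2, Fin.lt_def] at h3
      have := (b ⟨1, by omega⟩).2
      simp only at h3
      omega
    · have h3 := ha (show (0 : Fin (r + 1)) < k from Fin.pos_iff_ne_zero.2 hk0)
      rw [h1, Fin.lt_def] at h3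
      simp only at h3
      omega
  · exact hk h

theorem upd : S_UpD := by
  intro hOrd hLead hDiag hDComb hGrid hMult hLocD K _ n m r hr hrn hrm I hI
  classical
  obtain ⟨hNoeth, hloc, -, -, hdeep⟩ := hLocD K n m (r + 1) (by omega)
  have hn : 0 < n := by omega
  have hm : 0 < m := by omega
  let V := Fin n × Fin m
  let T : V := (⟨0, hn⟩, ⟨m - 1, by omega⟩)
  set I₀ := minorIdeal K n m (r + 1) with hI₀
  set d := r * (n + m - r) with hd
  have hd1 : 1 ≤ d := by
    rw [hd]
    exact Nat.mul_pos hr (by omega)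
  -- the order
  obtain ⟨lt, hlt, hltw⟩ := hOrd V
    (fun v => (n + 1) * (m + 1) - ((v.1 : ℕ) + 1) * ((v.2 : ℕ) + 1)) (by
      intro v
      have h1 := v.1.2
      have h2 := v.2.2
      have h3 : ((v.1 : ℕ) + 1) * ((v.2 : ℕ) + 1) ≤ n * m := Nat.mul_le_mul h1 h2
      have h4 : (n + 1) * (m + 1) = n * m + n + m + 1 := by ring
      omega)
  obtain ⟨L1, -, L3, L4⟩ := hLead K V lt hlt
  have hdiag := hDiag K n m (r + 1) lt hlt hltw
  -- deep ideals
  obtain ⟨N, hN⟩ : ∃ N, mIdeal K n m (r + 1) ^ N ≤ I := by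
    have h1 := Ideal.exists_radical_pow_le_of_fg I (IsNoetherian.noetherian _)
    rwa [hI] at h1
  let J : ℕ → Ideal (MvPowerSeries V K) := fun k => (I ^ k).comap (Ideal.Quotient.mk I₀)
  have hJdeep : ∀ k, Deep (N * k) (J k) := by
    intro k f hf
    have h1 := hdeep (N * k) f hf
    have h2 : mIdeal K n m (r + 1) ^ (N * k) = (mIdeal K n m (r + 1) ^ N) ^ k :=
      pow_mul (mIdeal K n m (r + 1)) N k
    exact Ideal.pow_right_mono hN k (h2.le h1)
  have hI₀J : ∀ k, I₀ ≤ J k := by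
    intro k f hf
    change Ideal.Quotient.mk I₀ f ∈ I ^ k
    rw [Ideal.Quotient.eq_zero_iff_mem.2 hf]
    exact Submodule.zero_mem _
  have hJpow : ∀ k, J 1 ^ k ≤ J k := by
    intro k
    have h1 := Ideal.le_comap_pow (K := I ^ 1) (Ideal.Quotient.mk I₀) k
    refine h1.trans ?_
    rw [pow_one]
  have hup : ∀ (J' : Ideal (MvPowerSeries V K)) (e e' : V →₀ ℕ), e ∈ Lead lt J' → e ≤ e' →
      e' ∈ Lead lt J' := by
    intro J' e e' he hee
    rw [← add_tsub_cancel_of_le hee]
    exact L3 J' e he _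
  -- the maximal chain-free sets
  let FM : Finset (Finset V) := Finset.univ.filter fun F => ChainFree r F ∧ F.card = d
  have hFM : ∀ F, F ∈ FM ↔ ChainFree r F ∧ F.card = d := fun F => by simp [FM]
  have hG := hGrid n m r hr hrn.le hrm.le
  have hTF : ∀ F ∈ FM, T ∈ F := by
    intro F hF
    rw [hFM] at hF
    by_contra hT
    have h1 := hG.1 _ (chain_insert hr hn hm F hF.1)
    rw [Finset.card_insert_of_notMem hT, hF.2] at h1
    omega
  let FF : Finset (Finset V) := FM.image fun F => F.erase T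
  have hFF1 : ∀ F ∈ FF, F.card = d - 1 ∧ T ∉ F := by
    intro F hF
    obtain ⟨F', hF', rfl⟩ := Finset.mem_image.1 hF
    rw [Finset.card_erase_of_mem (hTF F' hF'), ((hFM F').1 hF').2]
    exact ⟨rfl, Finset.notMem_erase _ _⟩
  have hFF2 : ∀ F ∈ FF, insert T F ∈ FM := by
    intro F hF
    obtain ⟨F', hF', rfl⟩ := Finset.mem_image.1 hF
    rw [Finset.insert_erase (hTF F' hF')]
    exact hF'
  have hFF3 : ∀ F ∈ FM, ∃ F' ∈ FF, insert T F' = F := by
    intro F hF
    exact ⟨F.erase T, Finset.mem_image.2 ⟨F, hF, rfl⟩, Finset.insert_erase (hTF F hF)⟩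
  have hcount : ∀ G : Finset V, T ∉ G →
      (FF.filter (G ⊆ ·)).card * 2 ^ G.card ≤ 2 ^ (d - 1) := by
    intro G hTG
    have h1 := hMult n m r hr hrn.le hrm.le (insert T G)
    rw [Finset.card_insert_of_notMem hTG, ← hd] at h1
    have h2 : (FF.filter (G ⊆ ·)).card ≤
        Set.ncard {F : Finset (Fin n × Fin m) | insert T G ⊆ F ∧ ChainFree r F ∧ F.card = d} := by
      rw [← Set.ncard_coe_finset]
      refine Set.ncard_le_ncard_of_injOn (fun F => insert T F) ?_ ?_ (Set.toFinite _)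
      · intro F hF
        rw [Finset.mem_coe, Finset.mem_filter] at hF
        have h3 := (hFM _).1 (hFF2 F hF.1)
        exact ⟨Finset.insert_subset_insert _ hF.2, h3.1, h3.2⟩
      · intro F hF F' hF' hFF
        rw [Finset.mem_coe, Finset.mem_filter] at hF hF'
        have h4 := (hFF1 F hF.1).2
        have h5 := (hFF1 F' hF'.1).2
        simp only at hFF
        rw [← Finset.erase_insert h4, ← Finset.erase_insert h5, hFF]
    have h6 : 2 ^ d = 2 * 2 ^ (d - 1) := by
      rw [← pow_succ']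
      congr 1
      omega
    rw [h6, pow_succ'] at h1
    have h7 : (FF.filter (G ⊆ ·)).card * 2 ^ G.card ≤
      Set.ncard {F : Finset (Fin n × Fin m) | insert T G ⊆ F ∧ ChainFree r F ∧ F.card = d} *
        2 ^ G.card := Nat.mul_le_mul_right _ h2
    have h8 : 2 * (Set.ncard {F : Finset (Fin n × Fin m) | insert T G ⊆ F ∧ ChainFree r F ∧
        F.card = d} * 2 ^ G.card) ≤ 2 * 2 ^ (d - 1) := by
      refine le_trans (le_of_eq ?_) h1
      ring
    omega
  have hbad : ∀ e : V →₀ ℕ, (¬ ∃ F ∈ FF, e.support ⊆ insert T F) → e ∈ Lead lt I₀ := by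
    intro e he
    have h1 : ¬ ChainFree r e.support := by
      intro hc
      obtain ⟨F, h2, h3, h4⟩ := hG.2 _ hc
      obtain ⟨F', hF', h5⟩ := hFF3 F ((hFM F).2 ⟨h3, h4⟩)
      exact he ⟨F', hF', by rw [h5]; exact h2⟩
    unfold ChainFree at h1
    push Not at h1
    obtain ⟨a, b, ha, hb, hab⟩ := h1
    refine hup I₀ _ e (hdiag a b ha hb) ?_
    intro v
    rw [Finsupp.finsetSum_apply]
    by_cases hv : ∃ k, (a k, b k) = v
    · obtain ⟨k, rfl⟩ := hv
      rw [Finset.sum_eq_single k]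
      · rw [Finsupp.single_eq_same]
        have := hab k
        rw [Finsupp.mem_support_iff] at this
        omega
      · intro k' _ hk'
        rw [Finsupp.single_eq_of_ne]
        intro h
        exact hk' (ha.injective (Prod.mk.inj h).1.symm)
      · intro h
        exact absurd (Finset.mem_univ _) h
    · rw [Finset.sum_eq_zero]
      · exact Nat.zero_le _
      · intro k _
        rw [Finsupp.single_eq_of_ne]
        intro h
        exact hv ⟨k, h.symm⟩
  -- the case of `I`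
  obtain ⟨f1, c1, e1⟩ := L1 (J 1) (N * 1) (hJdeep 1)
  have hcomb := hDComb V T (d - 1) FF hFF1 hcount (Lead lt (J 1)) (fun e he e' => L3 (J 1) e he e')
    (fun e he => lead_mono (hI₀J 1) (hbad e he)) c1
  obtain ⟨E1⟩ := qq I₀ I
  have hJ1 : J 1 = I.comap (Ideal.Quotient.mk I₀) :=
    congrArg (Ideal.comap (Ideal.Quotient.mk I₀)) (pow_one I)
  have f1' : Module.Finite K (MvPowerSeries (Fin n × Fin m) K ⧸
      I.comap (Ideal.Quotient.mk I₀)) := by
    rw [← hJ1]
    exact f1
  have q1 : Module.Finite K (DetRing K n m (r + 1) ⧸ I) := Module.Finite.equiv E1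
  have r1 : finrank K (DetRing K n m (r + 1) ⧸ I) = (Lead lt (J 1))ᶜ.ncard := by
    rw [← e1, hJ1]
    exact E1.finrank_eq.symm
  refine ⟨q1, fun k hk => ?_⟩
  obtain ⟨fk, ck, ek⟩ := L1 (J k) (N * k) (hJdeep k)
  obtain ⟨Ek⟩ := qq I₀ (I ^ k)
  refine ⟨Module.Finite.equiv Ek, ?_⟩
  rw [r1, ← Ek.finrank_eq]
  have hle := hcomb k hk
  refine le_trans ?_ hle
  have ek' : finrank K (MvPowerSeries (Fin n × Fin m) K ⧸ Ideal.comap (Ideal.Quotient.mk I₀) (I ^ k)) =
      (Lead lt (J k))ᶜ.ncard := ek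
  rw [ek']
  refine Set.ncard_le_ncard ?_ ?_
  · intro e he
    constructor
    · by_contra h
      exact he (lead_mono (hI₀J k) (hbad e h))
    · rintro ⟨a, ha, hsum⟩
      exact he (hup _ _ _ (lead_mono (hJpow k) (L4 (J 1) k a ha)) hsum)
  · have hN' : ∀ v : V, Finsupp.single v N ∈ Lead lt (J 1) := by
      intro v
      apply lead_monomial hlt
      apply hJdeep 1
      intro e' he'
      rw [MvPowerSeries.coeff_monomial_ne]
      rintro rfl
      rw [Finsupp.degree_single] at he'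
      omega
    have hfin : {e : V →₀ ℕ | ∀ v, e v ≤ k * N}.Finite := by
      have h3 : Set.Finite {f : V → ℕ | ∀ v, f v ≤ k * N} := by
        have : {f : V → ℕ | ∀ v, f v ≤ k * N} = Set.Iic (fun _ => k * N) := by
          ext f
          simp [Pi.le_def]
        rw [this]
        exact Set.finite_Iic _
      exact Set.Finite.of_finite_image (f := fun b : V →₀ ℕ => (b : V → ℕ))
        (h3.subset (by rintro _ ⟨b, hb, rfl⟩; exact hb)) DFunLike.coe_injective.injOn
    refine hfin.subset ?_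
    rintro e ⟨-, he⟩ v
    by_contra hv
    push Not at hv
    apply he
    refine ⟨fun _ => Finsupp.single v N, fun _ => hN' v, ?_⟩
    rw [Finset.sum_const, Finset.card_univ, Fintype.card_fin]
    intro v'
    rw [Finsupp.smul_apply, Finsupp.single_apply]
    split_ifs with hvv
    · rw [← hvv, smul_eq_mul]
      exact hv.le
    · simp

end Pool.Agent.Q166.DT
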